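import Pool.Agent.Helper68.SG2.GoalsC
import Pool.Agent.Helper78.SGC1.VANA

/-!
# Project SG stage 2 (MP_a41896_nt): packet SH2-VANT (a forbidden pair kills the bracket)

Adapted from `Pool/Agent/Helper78/SGC1/VANA.lean`.
-/

set_option autoImplicit false

open MvPolynomial

namespace Pool.Agent.Helper54.SG2

open WeierstrassCurve Height
open Pool.Agent.Helper29.BL Pool.Agent.Helper92.Ru Pool.Agent.Helper42.SG
open Pool.Agent.Helper68.SG2
open Pool.Agent.Helper76.SGC (hz ho SPL)
open Pool.Agent.Helper77.SGC (N0)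
open Pool.Agent.Helper78.SGC1 (swap3 sum_shift)

noncomputable section

/-- multiplication with a power of the variable -/
theorem sgT_sum {K : Type} [Field K] (S : Bool → Fin 2 → ℕ → ℕ → ℕ → ℕ → K) (M δ : ℕ)
    (lb : Bool) (μ : Fin 2) (j i m β : ℕ) (hS : ∀ g, S lb μ j g i m ≠ 0 → g ≤ 2 * M)
    (hβ : β < δ) (A : Type) [CommRing A] [Algebra K A] (x : A) :
    (∑ g ∈ Finset.range (2 * M + 1), algebraMap K A (S lb μ j g i m) * x ^ g) * x ^ β =
      ∑ g ∈ Finset.range (2 * M + δ), algebraMap K A (sgT S lb μ j g i m β) * x ^ g := by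
  have hn : 2 * M + δ = (2 * M + δ - 1) + 1 := by omega
  rw [hn, sum_shift (fun g => algebraMap K A (sgT S lb μ j g i m β) * x ^ g) β (2 * M)
    (2 * M + δ - 1) (by omega), Finset.sum_mul]
  · apply Finset.sum_congr rfl
    intro g _
    have : sgT S lb μ j (β + g) i m β = S lb μ j g i m := by
      unfold sgT
      rw [if_pos (Nat.le_add_right β g), Nat.add_sub_cancel_left]
    rw [this, pow_add]
    ring
  · intro t ht
    have : sgT S lb μ j t i m β = 0 := by
      unfold sgT
      rw [if_neg (by omega)]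
    rw [this, map_zero, zero_mul]
  · intro t ht
    have : sgT S lb μ j (β + t) i m β = 0 := by
      unfold sgT
      rw [if_pos (Nat.le_add_right β t), Nat.add_sub_cancel_left]
      by_contra hne
      have := hS t hne
      omega
    rw [this, map_zero, zero_mul]

/-- **VANT** -/
theorem t_VANT (h1 : SPL) : VANT := by
  classical
  intro K _ T W B D n M δ k0 F e G hG c hc A _ _ lam X μ i j hF0 hF
  have hne : hz j ≠ ho j := by
    intro h
    have : (hz j).val = (ho j).val := congrArg Fin.val h
    have e1 : (hz j).val = 2 * j.val := rfl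
    have e2 : (ho j).val = 2 * j.val + 1 := rfl
    omega
  have hdeg : ∀ h < 2 * n, ∀ l μ j g i m, G h l μ j g i m ≠ 0 → g ≤ 2 * M := by
    intro h hh l μ j g i m hne
    cases hT : T (h % 2)
    · have := (hG.degE h hh hT l μ j g i m hne).2
      omega
    · have := (hG.degG h hh hT l μ j g i m hne).2.1
      omega
  let S : ∀ h : Fin (2 * n), AxM n M e h → A := fun h x =>
    ∑ g ∈ Finset.range (2 * M + 1),
      algebraMap K A (G h.val (lam h.val) (μ h) (i h) g x.1.val x.2.val) *
        X (2 * n + h.val % 2) ^ g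
  have hS : ∀ α : ∀ h, AxM n M e h, (∏ h : Fin (2 * n), ∑ g ∈ Finset.range (2 * M + 1),
      algebraMap K A (G h.val (lam h.val) (μ h) (i h) g (α h).1.val (α h).2.val) *
        X (2 * n + h.val % 2) ^ g) = ∏ h : Fin (2 * n), S h (α h) := fun α => rfl
  have hB : BrT n M δ e G c lam X μ i = ∑ β : Fin 2 → Fin δ, ∑ α : ∀ h, AxM n M e h,
      algebraMap K A (c (α, β)) * (∏ h : Fin (2 * n), S h (α h)) *
        (X (2 * n) ^ (β 0).val * X (2 * n + 1) ^ (β 1).val) := by
    unfold BrT
    rw [Fintype.sum_prod_type_right]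
    apply Finset.sum_congr rfl
    intro β _
    apply Finset.sum_congr rfl
    intro α _
    rw [hS, Fin.prod_univ_two]
    rfl
  rw [hB]
  have hz0 : ∀ h : Fin (2 * n), AxM n M e h := fun h =>
    (⟨0, pow_pos (by norm_num) _⟩, ⟨0, Nat.succ_pos M⟩)
  have hprod : ∀ (α0 : ∀ h, AxM n M e h) (x : AxM n M e (hz j)) (x' : AxM n M e (ho j)),
      ∏ h : Fin (2 * n), S h (Function.update (Function.update α0 (hz j) x) (ho j) x' h) =
        S (hz j) x * S (ho j) x' *
          ∏ h ∈ (Finset.univ.erase (hz j)).erase (ho j), S h (α0 h) := by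
    intro α0 x x'
    rw [← Finset.mul_prod_erase Finset.univ _ (Finset.mem_univ (hz j)),
      ← Finset.mul_prod_erase (Finset.univ.erase (hz j)) _
        (Finset.mem_erase.mpr ⟨hne.symm, Finset.mem_univ (ho j)⟩), ← mul_assoc]
    rw [Function.update_self, Function.update_of_ne hne, Function.update_self]
    congr 1
    apply Finset.prod_congr rfl
    intro h hh
    rw [Finset.mem_erase, Finset.mem_erase] at hh
    rw [Function.update_of_ne hh.1, Function.update_of_ne hh.2.1]
  have hsplit : ∀ β : Fin 2 → Fin δ, _ := fun β =>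
    h1 (Fin (2 * n)) (AxM n M e) (hz j) (ho j) hne (hz0 (hz j)) (hz0 (ho j)) A
      (fun α => algebraMap K A (c (α, β)) * (∏ h : Fin (2 * n), S h (α h)) *
        (X (2 * n) ^ (β 0).val * X (2 * n + 1) ^ (β 1).val))
  rw [Finset.sum_congr rfl (fun β _ => hsplit β), Finset.sum_comm]
  apply Finset.sum_eq_zero
  intro α0 _
  simp only [hprod]
  have hI : ∑ x : AxM n M e (hz j), ∑ x' : AxM n M e (ho j), ∑ β : Fin 2 → Fin δ,
      algebraMap K A (c (Function.update (Function.update α0.1 (hz j) x) (ho j) x', β)) *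
        ((S (hz j) x * X (2 * n) ^ (β 0).val) * (S (ho j) x' * X (2 * n + 1) ^ (β 1).val)) = 0 := by
    have m0 : (hz j).val % 2 = 0 := by show (2 * j.val) % 2 = 0; omega
    have m1 : (ho j).val % 2 = 1 := by show (2 * j.val + 1) % 2 = 1; omega
    have t0 : ∀ (x : AxM n M e (hz j)) (β : Fin 2 → Fin δ), S (hz j) x * X (2 * n) ^ (β 0).val =
        ∑ g ∈ Finset.range (2 * M + δ), algebraMap K A (sgT (G (2 * j.val)) (lam (2 * j.val))
          (μ (hz j)) (i (hz j)) g x.1.val x.2.val (β 0).val) * X (2 * n) ^ g := by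
      intro x β
      have := sgT_sum (G (hz j).val) M δ (lam (hz j).val) (μ (hz j)) (i (hz j))
        x.1.val x.2.val (β 0).val
        (fun g hg => hdeg (hz j).val (hz j).isLt _ _ _ g _ _ hg) (β 0).isLt A (X (2 * n))
      rw [← show (hz j).val = 2 * j.val from rfl, ← this]
      show (∑ g ∈ Finset.range (2 * M + 1),
        algebraMap K A (G (hz j).val (lam (hz j).val) (μ (hz j)) (i (hz j)) g x.1.val
          x.2.val) * X (2 * n + (hz j).val % 2) ^ g) * X (2 * n) ^ (β 0).val = _
      simp only [m0, Nat.add_zero]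
    have t1 : ∀ (x' : AxM n M e (ho j)) (β : Fin 2 → Fin δ),
        S (ho j) x' * X (2 * n + 1) ^ (β 1).val =
        ∑ g ∈ Finset.range (2 * M + δ), algebraMap K A (sgT (G (2 * j.val + 1))
          (lam (2 * j.val + 1)) (μ (ho j)) (i (ho j)) g x'.1.val x'.2.val (β 1).val) *
            X (2 * n + 1) ^ g := by
      intro x' β
      have := sgT_sum (G (ho j).val) M δ (lam (ho j).val) (μ (ho j)) (i (ho j))
        x'.1.val x'.2.val (β 1).val
        (fun g hg => hdeg (ho j).val (ho j).isLt _ _ _ g _ _ hg) (β 1).isLt A (X (2 * n + 1))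
      rw [← show (ho j).val = 2 * j.val + 1 from rfl, ← this]
      show (∑ g ∈ Finset.range (2 * M + 1),
        algebraMap K A (G (ho j).val (lam (ho j).val) (μ (ho j)) (i (ho j)) g x'.1.val
          x'.2.val) * X (2 * n + (ho j).val % 2) ^ g) * X (2 * n + 1) ^ (β 1).val = _
      rw [m1]
    have hx : ∀ (x : AxM n M e (hz j)) (x' : AxM n M e (ho j)) (β : Fin 2 → Fin δ),
        algebraMap K A (c (Function.update (Function.update α0.1 (hz j) x) (ho j) x', β)) *
        ((S (hz j) x * X (2 * n) ^ (β 0).val) * (S (ho j) x' * X (2 * n + 1) ^ (β 1).val)) =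
        ∑ g ∈ Finset.range (2 * M + δ), ∑ g' ∈ Finset.range (2 * M + δ),
          algebraMap K A (c (Function.update (Function.update α0.1 (hz j) x) (ho j) x', β) *
            (sgT (G (2 * j.val)) (lam (2 * j.val)) (μ (hz j)) (i (hz j)) g x.1.val x.2.val
              (β 0).val *
            sgT (G (2 * j.val + 1)) (lam (2 * j.val + 1)) (μ (ho j)) (i (ho j)) g' x'.1.val
              x'.2.val (β 1).val)) * (X (2 * n) ^ g * X (2 * n + 1) ^ g') := by
      intro x x' β
      rw [t0, t1, Finset.sum_mul_sum, Finset.mul_sum]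
      apply Finset.sum_congr rfl
      intro g _
      rw [Finset.mul_sum]
      apply Finset.sum_congr rfl
      intro g' _
      rw [map_mul, map_mul]
      ring
    simp only [hx]
    have w1 : ∀ (x : AxM n M e (hz j)) (x' : AxM n M e (ho j)), _ := fun x x' =>
      swap3 (Finset.univ : Finset (Fin 2 → Fin δ)) (Finset.range (2 * M + δ))
        (Finset.range (2 * M + δ))
        (fun β g g' =>
          algebraMap K A (c (Function.update (Function.update α0.1 (hz j) x) (ho j) x', β) *
            (sgT (G (2 * j.val)) (lam (2 * j.val)) (μ (hz j)) (i (hz j)) g x.1.val x.2.val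
              (β 0).val *
            sgT (G (2 * j.val + 1)) (lam (2 * j.val + 1)) (μ (ho j)) (i (ho j)) g' x'.1.val
              x'.2.val (β 1).val)) * (X (2 * n) ^ g * X (2 * n + 1) ^ g'))
    rw [Finset.sum_congr rfl (fun x _ => Finset.sum_congr rfl (fun x' _ => w1 x x'))]
    rw [Finset.sum_congr rfl (fun x _ => swap3 (Finset.univ : Finset (AxM n M e (ho j)))
      (Finset.range (2 * M + δ)) (Finset.range (2 * M + δ)) _)]
    rw [swap3 (Finset.univ : Finset (AxM n M e (hz j))) (Finset.range (2 * M + δ))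
      (Finset.range (2 * M + δ)) _]
    obtain ⟨Q, hQ⟩ := hc j α0.1 (lam (2 * j.val)) (lam (2 * j.val + 1)) (μ (hz j)) (μ (ho j))
      (i (hz j)) (i (ho j)) hF
    have hQ0 := congrArg (aeval (fun t : Fin 2 => X (2 * n + t.val))) hQ
    rw [map_mul, hF0, zero_mul, map_sum] at hQ0
    rw [← hQ0]
    refine Finset.sum_congr rfl fun g _ => ?_
    rw [map_sum]
    refine Finset.sum_congr rfl fun g' _ => ?_
    rw [map_mul, map_mul, map_pow, map_pow, aeval_X, aeval_X, aeval_C, map_sum, Finset.sum_mul]
    refine Finset.sum_congr rfl fun x _ => ?_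
    rw [map_sum, Finset.sum_mul]
    refine Finset.sum_congr rfl fun x' _ => ?_
    rw [map_sum, Finset.sum_mul]
    rfl
  have hR : ∀ (x : AxM n M e (hz j)) (x' : AxM n M e (ho j)) (β : Fin 2 → Fin δ),
      algebraMap K A (c (Function.update (Function.update α0.1 (hz j) x) (ho j) x', β)) *
        (S (hz j) x * S (ho j) x' *
          ∏ h ∈ (Finset.univ.erase (hz j)).erase (ho j), S h (α0.1 h)) *
        (X (2 * n) ^ (β 0).val * X (2 * n + 1) ^ (β 1).val) =
      (algebraMap K A (c (Function.update (Function.update α0.1 (hz j) x) (ho j) x', β)) *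
        ((S (hz j) x * X (2 * n) ^ (β 0).val) * (S (ho j) x' * X (2 * n + 1) ^ (β 1).val))) *
        ∏ h ∈ (Finset.univ.erase (hz j)).erase (ho j), S h (α0.1 h) := by
    intro x x' β
    ring
  simp only [hR]
  rw [swap3 (Finset.univ : Finset (Fin 2 → Fin δ)) (Finset.univ : Finset (AxM n M e (hz j)))
    (Finset.univ : Finset (AxM n M e (ho j))) _]
  simp only [← Finset.sum_mul]
  rw [hI, zero_mul]

end

end Pool.Agent.Helper54.SG2
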